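import Pool.Agent.helper88.HT.Spec

/-!
# Project HT (MP_069684_lc), row REN: renaming the inputs of a circuit
-/

set_option autoImplicit false

namespace Pool.Agent.helper88.HT

open Pool.Agent.helper38.Neg Pool.Agent.helper55.NT

/-- a gate with renamed wires -/
private def REN_gate {a b : ℕ} (w : Fin a → Fin b) : Gate a → Gate b
  | Gate.const c => Gate.const c
  | Gate.and i j => Gate.and (w i) (w j)
  | Gate.or i j => Gate.or (w i) (w j)
  | Gate.not i => Gate.not (w i)

private theorem REN_gate_eval {a b : ℕ} (w : Fin a → Fin b) (g : Gate a) (v : Fin b → Bool) :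
    (REN_gate w g).eval v = g.eval fun i => v (w i) := by
  cases g <;> rfl

private theorem REN_all (N N' : ℕ) (ι : Fin N → Fin N') : ∀ (s : ℕ) (C : Circuit N s),
    ∃ (C' : Circuit N' s) (w : Fin (N + s) → Fin (N' + s)),
      ∀ x k, C'.val x (w k) = C.val (fun i => x (ι i)) k := by
  intro s C
  induction C with
  | nil => exact ⟨Circuit.nil, ι, fun x k => rfl⟩
  | @snoc s C g ih =>
    obtain ⟨C₀, w, hw⟩ := ih
    refine ⟨Circuit.snoc C₀ (REN_gate w g),
      Fin.snoc (α := fun _ => Fin (N' + s + 1)) (fun k => (w k).castSucc) (Fin.last (N' + s)), ?_⟩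
    intro x k
    show Fin.snoc (α := fun _ => Bool) (C₀.val x) ((REN_gate w g).eval (C₀.val x)) _ =
      Fin.snoc (α := fun _ => Bool) (C.val fun i => x (ι i)) (g.eval (C.val fun i => x (ι i))) k
    induction k using Fin.lastCases with
    | last =>
      have e1 : Fin.snoc (α := fun _ => Bool) (C.val fun i => x (ι i))
          (g.eval (C.val fun i => x (ι i))) (Fin.last (N + s)) =
          g.eval (C.val fun i => x (ι i)) := Fin.snoc_last _ _
      rw [Fin.snoc_last, Fin.snoc_last, REN_gate_eval]
      refine Eq.trans ?_ e1.symm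
      congr 1
      funext i
      exact hw x i
    | cast k =>
      have e1 : Fin.snoc (α := fun _ => Bool) (C.val fun i => x (ι i))
          (g.eval (C.val fun i => x (ι i))) (Fin.castSucc (n := N + s) k) =
          C.val (fun i => x (ι i)) k := Fin.snoc_castSucc _ _ _
      rw [Fin.snoc_castSucc, Fin.snoc_castSucc]
      exact (hw x k).trans e1.symm

theorem REN : REN_stmt := by
  intro N N' s C o ι
  obtain ⟨C', w, hw⟩ := REN_all N N' ι s C
  exact ⟨C', w o, fun x => hw x o⟩

end Pool.Agent.helper88.HT
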